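import Pool.Agent.Helper2.SV.GoalsP

/-!
# MP_e9db21_co, project SV, packet REP: the replication lemma
-/

set_option autoImplicit false

namespace Pool.Agent.Helper83.SV

open Pool.Agent.Helper2.SV

open scoped Classical in
/-- Packet `REP`: the replication lemma. -/
theorem goalREP : G_REP := by
  intro V _ G A hA m
  induction m with
  | zero =>
    intro c X x hXA _ hom _
    obtain ⟨f, hf1, hf2⟩ := hA (X \ {x}) (fun y hy => hXA hy.1) c hom
    refine ⟨f, fun y hy hyx => hf1 y ⟨hy, hyx⟩,
      fun y hy z hz hyx hzx hyz => hf2 y ⟨hy, hyx⟩ z ⟨hz, hzx⟩ hyz, fun y hy hxy => ?_⟩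
    exact hf1 y ⟨hy, fun h => hxy.ne' h⟩
  | succ m ih =>
    intro c X x hXA hx hom hcl
    have hc1 : m + 1 ≤ c := by
      have h := hcl ∅ (by simp) (by simpa using clq_empty G)
      simpa using h
    obtain ⟨c', rfl⟩ : ∃ c', c = c' + 1 := ⟨c - 1, by omega⟩
    -- every clique of `X` has at most `c` vertices
    have homX : OmLe G X (c' + 1) := by
      intro K hK hKc
      by_cases hxK : x ∈ K
      · have h1 : (↑(K.erase x) : Set V) ⊆ {y | y ∈ X ∧ G.Adj x y} := by
          intro y hy
          have hy' := Finset.mem_erase.1 (Finset.mem_coe.1 hy)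
          exact ⟨hK (Finset.mem_coe.2 hy'.2),
            hKc x (Finset.mem_coe.2 hxK) y (Finset.mem_coe.2 hy'.2) (Ne.symm hy'.1)⟩
        have h2 := hcl (K.erase x) h1 (hKc.mono (by
          intro y hy
          exact Finset.mem_coe.2 (Finset.mem_erase.1 (Finset.mem_coe.1 hy)).2))
        rw [Finset.card_erase_of_mem hxK] at h2
        omega
      · refine hom K (fun y hy => ⟨hK hy, fun h => hxK ?_⟩) hKc
        rw [Set.mem_singleton_iff] at h
        exact h ▸ Finset.mem_coe.1 hy
    obtain ⟨g, hg1, hg2⟩ := hA X hXA (c' + 1) homX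
    -- the set `X'`
    obtain ⟨f', hf1, hf2, hf3⟩ := ih c' {y | y ∈ X ∧ (g y ≠ g x ∨ y = x)} x
      (fun y hy => hXA hy.1) ⟨hx, Or.inr rfl⟩
      (by
        intro K hK hKc
        have h1 : K.card ≤ ((Finset.range (c' + 1)).erase (g x)).card := by
          refine Finset.card_le_card_of_injOn g (fun y hy => ?_) (fun y hy z hz hyz => ?_)
          · have hy' := hK hy
            rw [Finset.mem_coe, Finset.mem_erase, Finset.mem_range]
            exact ⟨hy'.1.2.resolve_right hy'.2, hg1 y hy'.1.1⟩
          · by_contra hne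
            exact hg2 y (hK hy).1.1 z (hK hz).1.1 (hKc y hy z hz hne) hyz
        rw [Finset.card_erase_of_mem (Finset.mem_range.2 (hg1 x hx)), Finset.card_range] at h1
        simpa using h1)
      (by
        intro K hK hKc
        have h1 := hcl K (fun y hy => ⟨(hK hy).1.1, (hK hy).2⟩) hKc
        omega)
    refine ⟨fun y => if g y = g x then c' else f' y, fun y hy hyx => ?_,
      fun y hy z hz hyx hzx hyz => ?_, fun y hy hxy => ?_⟩
    · show (if g y = g x then c' else f' y) < c' + 1
      split_ifs with h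
      · exact Nat.lt_succ_self _
      · exact (hf1 y ⟨hy, Or.inl h⟩ hyx).trans (Nat.lt_succ_self _)
    · show (if g y = g x then c' else f' y) ≠ (if g z = g x then c' else f' z)
      split_ifs with h1 h2 h2
      · exact absurd (h1.trans h2.symm) (hg2 y hy z hz hyz)
      · exact (hf1 z ⟨hz, Or.inl h2⟩ hzx).ne'
      · exact (hf1 y ⟨hy, Or.inl h1⟩ hyx).ne
      · exact hf2 y ⟨hy, Or.inl h1⟩ z ⟨hz, Or.inl h2⟩ hyx hzx hyz
    · have h : g y ≠ g x := fun h => hg2 x hx y hy hxy h.symm
      show (if g y = g x then c' else f' y) + (m + 1) < c' + 1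
      rw [if_neg h]
      have := hf3 y ⟨hy, Or.inl h⟩ hxy
      omega

end Pool.Agent.Helper83.SV
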